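import Pool.Agent.V7H63.CY.Cc

/-!
# There are many curves with a point of order eight
-/

set_option autoImplicit false

namespace Pool.Agent.V7H63.CY

open Finset Pool.Agent.W307.RT WeierstrassCurve Pool.Agent.V7H45.CY
open Pool.Agent.W29.RT (nons neg_y totient_sum)

/-- the form `M` -/
def m8 (a _b : ℤ) : ℤ := a ^ 4
/-- the form `N` -/
def n8 (a b : ℤ) : ℤ := (b ^ 2 - a ^ 2) ^ 2

/-- the point of order eight -/
lemma hasC8 {a b : ℤ} (ha : 0 < a) (hab : a < b) :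
    HasC 8 (Sh (cc (m8 a b) (n8 a b)).1 (cc (m8 a b) (n8 a b)).2) := by
  have ha' : (0 : ℚ) < a := by exact_mod_cast ha
  have hab' : (a : ℚ) < b := by exact_mod_cast hab
  have hb' : (0 : ℚ) < b := by linarith
  have hd : (0 : ℚ) < b - a := by linarith
  have hs : (0 : ℚ) < a + b := by linarith
  have hn : n8 a b ≠ 0 := by
    have h1 : 0 < b - a := by linarith
    have h2 : 0 < b + a := by linarith
    have : n8 a b = ((b - a) * (b + a)) ^ 2 := by unfold n8; ring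
    rw [this]
    positivity
  obtain ⟨h4, ho⟩ := cc_four (M := m8 a b) (N := n8 a b) (t := (a : ℚ) ^ 2)
    (by unfold m8; push_cast; ring) (by positivity) hn
  have hM : ((m8 a b : ℤ) : ℚ) = (a : ℚ) ^ 4 := by unfold m8; push_cast; ring
  have hN : ((n8 a b : ℤ) : ℚ) = ((b : ℚ) ^ 2 - (a : ℚ) ^ 2) ^ 2 := by unfold n8; push_cast; ring
  have hA : (((cc (m8 a b) (n8 a b)).1 : ℤ) : ℚ) = -27 * (16 * (a : ℚ) ^ 8 -
      16 * (a : ℚ) ^ 4 * ((b : ℚ) ^ 2 - (a : ℚ) ^ 2) ^ 2 + ((b : ℚ) ^ 2 - (a : ℚ) ^ 2) ^ 4) := by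
    simp only [cc]
    push_cast
    rw [hM, hN]
    ring
  have hB : (((cc (m8 a b) (n8 a b)).2 : ℤ) : ℚ) =
      54 * ((2 * (a : ℚ) ^ 4 - ((b : ℚ) ^ 2 - (a : ℚ) ^ 2) ^ 2) * (32 * (a : ℚ) ^ 8 -
      32 * (a : ℚ) ^ 4 * ((b : ℚ) ^ 2 - (a : ℚ) ^ 2) ^ 2 - ((b : ℚ) ^ 2 - (a : ℚ) ^ 2) ^ 4)) := by
    simp only [cc]
    push_cast
    rw [hM, hN]
    ring
  generalize (cc (m8 a b) (n8 a b)).1 = A at hA h4 ho ⊢
  generalize (cc (m8 a b) (n8 a b)).2 = B at hB h4 ho ⊢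
  obtain ⟨x8, hx8⟩ : ∃ x8 : ℚ, x8 = 9 * (b - a) * (a + b) ^ 3 + 12 * (a : ℚ) ^ 4 -
    6 * ((b : ℚ) ^ 2 - (a : ℚ) ^ 2) ^ 2 := ⟨_, rfl⟩
  obtain ⟨y8, hy8⟩ : ∃ y8 : ℚ, y8 = 54 * (a * b * (b - a) * (a + b) ^ 3) := ⟨_, rfl⟩
  have hy80 : y8 ≠ 0 := by rw [hy8]; positivity
  have hP8 : (Sh A B).toAffine.Nonsingular x8 y8 := by
    apply nons _ (Or.inl hy80)
    rw [hA, hB, hx8, hy8]
    ring
  set Q : (Sh A B).toAffine.Point := .some _ _ h4 with hQd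
  set P : (Sh A B).toAffine.Point := .some _ _ hP8 with hPd
  have hPP : P + P = Q := by
    have hne : y8 ≠ (Sh A B).toAffine.negY x8 y8 := by
      rw [neg_y]
      intro h
      apply hy80
      linarith
    have hsl : (Sh A B).toAffine.slope x8 x8 y8 y8 =
        3 * ((b : ℚ) ^ 2 + 2 * a * b - (a : ℚ) ^ 2) := by
      rw [Affine.slope_of_Y_ne rfl hne, neg_y]
      simp only [Sh]
      rw [div_eq_iff (by intro h; apply hy80; linarith), hA, hx8, hy8]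
      ring
    rw [hPd, Affine.Point.add_self_of_Y_ne hne, hQd, Affine.Point.some.injEq, hsl]
    have hX : (Sh A B).toAffine.addX x8 x8 (3 * ((b : ℚ) ^ 2 + 2 * a * b - (a : ℚ) ^ 2)) =
        12 * ((m8 a b : ℤ) : ℚ) + 3 * ((n8 a b : ℤ) : ℚ) := by
      simp only [Affine.addX, Sh]
      rw [hx8, hM, hN]
      ring
    refine ⟨hX, ?_⟩
    simp only [Affine.addY, Affine.negAddY]
    rw [hX]
    simp only [Affine.negY, Sh]
    rw [hx8, hy8, hM, hN]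
    ring
  refine ⟨P, ?_⟩
  have h2P : 2 • P = Q := by rw [two_nsmul, hPP]
  have h4P : (4 : ℕ) • P = 2 • Q := by
    rw [← h2P, ← mul_nsmul]
  have h8P : (8 : ℕ) • P = 4 • Q := by
    rw [← h2P, ← mul_nsmul]
  have := addOrderOf_eq_prime_pow (x := P) (p := 2) (n := 2) (by
    norm_num [h4P]
    intro h
    have h5 := addOrderOf_dvd_of_nsmul_eq_zero h
    rw [ho] at h5
    norm_num at h5) (by
    norm_num [h8P]
    rw [← ho]
    exact addOrderOf_nsmul_eq_zero Q)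
  simpa using this

lemma not3_sq {x y : ℤ} (h : IsCoprime (x ^ 2) (y ^ 2)) : ¬ (3 : ℤ) ∣ x ^ 2 + y ^ 2 := by
  intro hd
  have hx : x % 3 = 0 ∨ x % 3 = 1 ∨ x % 3 = 2 := by omega
  have hy : y % 3 = 0 ∨ y % 3 = 1 ∨ y % 3 = 2 := by omega
  have hd' : (x ^ 2 + y ^ 2) % 3 = 0 := Int.emod_eq_zero_of_dvd hd
  have hxy : x % 3 = 0 ∧ y % 3 = 0 := by
    rcases hx with h1 | h1 | h1 <;> rcases hy with h2 | h2 | h2 <;>
      simp [Int.add_emod, pow_two, Int.mul_emod, h1, h2] at hd' ⊢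
  have h1 : (3 : ℤ) ∣ x ^ 2 := Dvd.dvd.pow (Int.dvd_of_emod_eq_zero hxy.1) (by norm_num)
  have h2 : (3 : ℤ) ∣ y ^ 2 := Dvd.dvd.pow (Int.dvd_of_emod_eq_zero hxy.2) (by norm_num)
  exact absurd (h.isUnit_of_dvd' h1 h2) (by decide)

lemma cop8 {a b : ℤ} (h : IsCoprime a b) : IsCoprime (m8 a b) (n8 a b) := by
  unfold m8 n8
  apply IsCoprime.pow
  have e : b ^ 2 - a ^ 2 = b ^ 2 + a * (-a) := by ring
  rw [e]
  exact IsCoprime.add_mul_left_right h.pow_right _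

/-- the pairs: `b = 2 k`, `a < b` coprime -/
def SC (r T : ℕ) : Finset (Σ _ : ℕ, ℕ) :=
  (Icc 1 (T / r)).sigma (fun k => (range (r * k)).filter (fun b => (r * k).Coprime b))

lemma card_SC (r T : ℕ) (hr : 1 ≤ r) : (T / r) ^ 2 ≤ 12 * (SC r T).card := by
  refine (totient_sum (T / r)).trans ?_
  apply Nat.mul_le_mul_left
  unfold SC
  rw [card_sigma]
  apply sum_le_sum
  intro k hk
  rw [mem_Icc] at hk
  have h1 : k.totient ≤ (r * k).totient := by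
    apply Nat.le_of_dvd
    · rw [Nat.totient_pos]
      have : 0 < k := by omega
      positivity
    · exact Nat.totient_dvd_of_dvd (Dvd.intro_left r rfl)
  exact h1

lemma card_SC' (r T : ℕ) (hr : 1 ≤ r) (hT : r ≤ T) :
    (T : ℝ) ^ 2 ≤ 48 * (r : ℝ) ^ 2 * ((SC r T).card : ℝ) := by
  have h2 := card_SC r T hr
  have h0 : 1 ≤ T / r := (Nat.one_le_div_iff (by omega)).2 hT
  have h4 : T ≤ 2 * r * (T / r) := by
    have h5 := Nat.lt_mul_div_succ T (b := r) (by omega)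
    have h6 : r * (T / r + 1) ≤ 2 * r * (T / r) := by nlinarith
    omega
  have h5 : T ^ 2 ≤ (2 * r * (T / r)) ^ 2 := Nat.pow_le_pow_left h4 2
  have h6 : (2 * r * (T / r)) ^ 2 = 4 * r ^ 2 * (T / r) ^ 2 := by ring
  have h7 : T ^ 2 ≤ 48 * r ^ 2 * (SC r T).card := by
    calc T ^ 2 ≤ 4 * r ^ 2 * (T / r) ^ 2 := by rw [← h6]; exact h5
      _ ≤ 4 * r ^ 2 * (12 * (SC r T).card) := Nat.mul_le_mul_left _ h2
      _ = _ := by ring
  exact_mod_cast h7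

lemma mem_SC {r T : ℕ} (hr : 2 ≤ r) {t : Σ _ : ℕ, ℕ} (ht : t ∈ SC r T) :
    1 ≤ t.1 ∧ 1 ≤ t.2 ∧ t.2 < r * t.1 ∧ r * t.1 ≤ T ∧ (r * t.1).Coprime t.2 := by
  unfold SC at ht
  rw [mem_sigma, mem_Icc, mem_filter, mem_range] at ht
  obtain ⟨⟨k1, k2⟩, k3, k4⟩ := ht
  have k5 : r * t.1 ≤ T := (Nat.mul_le_mul_left r k2).trans (Nat.mul_div_le T r)
  refine ⟨k1, ?_, k3, k5, k4⟩
  rcases Nat.eq_zero_or_pos t.2 with h | h
  · rw [h, Nat.coprime_zero_right] at k4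
    have : 2 * 1 ≤ r * t.1 := Nat.mul_le_mul hr k1
    omega
  · exact h

lemma mem8 {a b : ℤ} {T H : ℕ} (ha : 0 < a) (hab : a < b) (hbT : b ≤ (T : ℤ))
    (hcop : IsCoprime a b) (hev : (2 : ℤ) ∣ b) (hH : 3000000000 * T ^ 24 ≤ H) :
    cc (m8 a b) (n8 a b) ∈ CvC 8 H := by
  have hT0 : (0 : ℤ) ≤ (T : ℤ) := by positivity
  have hb0 : 0 < b := by linarith
  have hsub : 0 < b ^ 2 - a ^ 2 := by nlinarith
  have hcop8 := cop8 hcop
  have h2 : ¬ (2 : ℤ) ∣ n8 a b := by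
    intro h
    have hp2 : Prime (2 : ℤ) := Int.prime_two
    have h3 : (2 : ℤ) ∣ b ^ 2 - a ^ 2 := hp2.dvd_of_dvd_pow h
    have h4 : (2 : ℤ) ∣ a ^ 2 := by
      have e : a ^ 2 = b ^ 2 - (b ^ 2 - a ^ 2) := by ring
      rw [e]
      exact dvd_sub (Dvd.dvd.pow hev (by norm_num)) h3
    exact absurd (hcop.isUnit_of_dvd' (hp2.dvd_of_dvd_pow h4) hev) (by decide)
  have h3 : ¬ (3 : ℤ) ∣ m8 a b + n8 a b := by
    have e : m8 a b + n8 a b = (a ^ 2) ^ 2 + (b ^ 2 - a ^ 2) ^ 2 := by unfold m8 n8; ring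
    rw [e]
    apply not3_sq
    have e2 : m8 a b = (a ^ 2) ^ 2 := by unfold m8; ring
    rw [e2] at hcop8
    exact hcop8
  have hn : n8 a b ≠ 0 := by unfold n8; exact pow_ne_zero 2 hsub.ne'
  refine cc_mem (S := (T : ℤ) ^ 4) ?_ hn ?_ hcop8 h2 h3 ?_ ?_ ?_ (hasC8 ha hab)
  · unfold m8; positivity
  · intro h
    have h5 : b ^ 2 * (b ^ 2 - 2 * a ^ 2) = 0 := by
      have : b ^ 2 * (b ^ 2 - 2 * a ^ 2) = n8 a b - m8 a b := by unfold m8 n8; ring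
      rw [this, h, sub_self]
    rcases mul_eq_zero.1 h5 with h6 | h6
    · have : 0 < b ^ 2 := by positivity
      linarith
    · -- `b² = 2 a²` contradicts the parity
      have hp2 : Prime (2 : ℤ) := Int.prime_two
      obtain ⟨c, hc⟩ := hev
      have h7 : (2 : ℤ) ∣ a ^ 2 := ⟨c ^ 2, by rw [hc] at h6; linarith⟩
      exact absurd (hcop.isUnit_of_dvd' (hp2.dvd_of_dvd_pow h7) ⟨c, hc⟩) (by decide)
  · unfold m8
    rw [abs_of_nonneg (by positivity)]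
    have : a ≤ (T : ℤ) := by linarith
    gcongr
  · unfold n8
    rw [abs_of_nonneg (by positivity)]
    have h8 : b ^ 2 ≤ (T : ℤ) ^ 2 := by gcongr
    have h9 : b ^ 2 - a ^ 2 ≤ (T : ℤ) ^ 2 := by nlinarith
    calc (b ^ 2 - a ^ 2) ^ 2 ≤ ((T : ℤ) ^ 2) ^ 2 := by gcongr
      _ = (T : ℤ) ^ 4 := by ring
  · have : (3000000000 : ℤ) * (T : ℤ) ^ 24 ≤ (H : ℤ) := by exact_mod_cast hH
    calc (3000000000 : ℤ) * ((T : ℤ) ^ 4) ^ 6 = 3000000000 * (T : ℤ) ^ 24 := by ring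
      _ ≤ _ := this

lemma inj8 {a b a' b' : ℤ} (ha : 0 < a) (hab : a < b) (ha' : 0 < a') (hab' : a' < b')
    (h : cc (m8 a b) (n8 a b) = cc (m8 a' b') (n8 a' b')) : a = a' ∧ b = b' := by
  have hsub : 0 < b ^ 2 - a ^ 2 := by nlinarith
  have hsub' : 0 < b' ^ 2 - a' ^ 2 := by nlinarith
  obtain ⟨e1, e2⟩ := cc_inj (by unfold m8; positivity) (by unfold m8; positivity) h
    (by unfold n8; positivity)
  unfold m8 at e1
  unfold n8 at e2
  have f1 : a = a' := (pow_left_inj₀ ha.le ha'.le (by norm_num)).1 e1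
  have f2 : b ^ 2 - a ^ 2 = b' ^ 2 - a' ^ 2 :=
    (pow_left_inj₀ hsub.le hsub'.le (by norm_num)).1 e2
  have f3 : b ^ 2 = b' ^ 2 := by rw [f1] at f2; linarith
  exact ⟨f1, (pow_left_inj₀ (by linarith) (by linarith) (by norm_num)).1 f3⟩

theorem t_L8 : S_L8 := by
  refine ⟨1 / 192, 3000000000, 2, by norm_num, fun T H hT hH => ?_⟩
  have h1 : (SC 2 T).card ≤ (CvC 8 H).card := by
    apply card_le_card_of_injOn (fun t : (Σ _ : ℕ, ℕ) =>
      cc (m8 (t.2 : ℤ) ((2 * t.1 : ℕ) : ℤ)) (n8 (t.2 : ℤ) ((2 * t.1 : ℕ) : ℤ)))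
    · intro t ht
      obtain ⟨k1, k2, k3, k4, k5⟩ := mem_SC (le_refl 2) (show t ∈ SC 2 T from ht)
      exact mem8 (by exact_mod_cast k2) (by exact_mod_cast k3) (by exact_mod_cast k4)
        (Nat.isCoprime_iff_coprime.2 k5.symm) (by push_cast; exact Dvd.intro _ rfl) hH
    · intro t ht t' ht' h
      obtain ⟨k1, k2, k3, k4, k5⟩ := mem_SC (le_refl 2) (show t ∈ SC 2 T from ht)
      obtain ⟨k1', k2', k3', k4', k5'⟩ := mem_SC (le_refl 2) (show t' ∈ SC 2 T from ht')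
      obtain ⟨q1, q2⟩ := inj8 (by exact_mod_cast k2) (by exact_mod_cast k3)
        (by exact_mod_cast k2') (by exact_mod_cast k3') h
      have q1' : t.2 = t'.2 := by exact_mod_cast q1
      have q2' : 2 * t.1 = 2 * t'.1 := by exact_mod_cast q2
      exact Sigma.ext (by omega) (heq_of_eq q1')
  have h3 := card_SC' 2 T (by norm_num) hT
  have h4 : ((SC 2 T).card : ℝ) ≤ ((CvC 8 H).card : ℝ) := by exact_mod_cast h1
  push_cast at h3
  linarith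

end Pool.Agent.V7H63.CY
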