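import Pool.Agent.V7H45.CY.Spec3
import Pool.Agent.V7H63.CY.L8

/-!
# There are many curves with a point of order four
-/

set_option autoImplicit false

namespace Pool.Agent.V7H63.CY

open Finset Pool.Agent.W307.RT WeierstrassCurve Pool.Agent.V7H45.CY
open Pool.Agent.W29.RT (nons neg_y totient_sum)

/-- the coefficients -/
def dd (T S : ℤ) : ℤ × ℤ :=
  (-27 * (T ^ 4 - 4 * T ^ 2 * S + S ^ 2),
    27 * ((T ^ 2 - 2 * S) * (2 * T ^ 4 - 8 * T ^ 2 * S - S ^ 2)))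

lemma dd_cc (T S : ℤ) : cc (T ^ 2) (4 * S) = (16 * (dd T S).1, 64 * (dd T S).2) := by
  simp only [cc, dd, Prod.mk.injEq]
  constructor <;> ring

lemma dd_inj {T S T' S' : ℤ} (hT : 0 < T) (hT' : 0 < T') (hS : 0 < S) (hS' : 0 < S')
    (h : dd T S = dd T' S') : T = T' ∧ S = S' := by
  obtain ⟨e1, e2⟩ := cc_inj (M := T ^ 2) (N := 4 * S) (M' := T' ^ 2) (N' := 4 * S')
    (by positivity) (by positivity) (by rw [dd_cc, dd_cc, h]) (by positivity)
  exact ⟨(pow_left_inj₀ hT.le hT'.le (by norm_num)).1 e1, by linarith⟩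

lemma dd_disc_ne {T S : ℤ} (hT : T ≠ 0) (hS : S ≠ 0) (h : T ^ 2 ≠ 4 * S) :
    4 * (dd T S).1 ^ 3 + 27 * (dd T S).2 ^ 2 ≠ 0 := by
  have e : 4 * (dd T S).1 ^ 3 + 27 * (dd T S).2 ^ 2 =
      -531441 * (S ^ 4 * T ^ 2 * (T ^ 2 - 4 * S)) := by
    simp only [dd]
    ring
  rw [e]
  have : T ^ 2 - 4 * S ≠ 0 := sub_ne_zero.2 h
  simp [hT, hS, this]

lemma dd_min {T S : ℤ} (hc : IsCoprime T S) (h6 : (6 : ℤ) ∣ T) :
    ∀ p : ℕ, p.Prime → ¬ ((p : ℤ) ^ 4 ∣ (dd T S).1 ∧ (p : ℤ) ^ 6 ∣ (dd T S).2) := by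
  rintro p hp ⟨k1, k2⟩
  have hpI : Prime (p : ℤ) := Nat.prime_iff_prime_int.1 hp
  have hnot : ¬ ((p : ℤ) ∣ T ∧ (p : ℤ) ∣ S) := by
    rintro ⟨ha, hb⟩
    exact hpI.not_isUnit (hc.isUnit_of_dvd' ha hb)
  have hTS : (p : ℤ) ∣ S → (p : ℤ) ∣ T ^ 4 - 4 * T ^ 2 * S + S ^ 2 → False := by
    intro h1 h2
    apply hnot
    refine ⟨?_, h1⟩
    have e : T ^ 4 = (T ^ 4 - 4 * T ^ 2 * S + S ^ 2) - S * (S - 4 * T ^ 2) := by ring
    apply hpI.dvd_of_dvd_pow (n := 4)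
    rw [e]
    exact dvd_sub h2 (Dvd.dvd.mul_right h1 _)
  simp only [dd] at k1 k2
  by_cases hpT : (p : ℤ) ∣ T
  · -- `p ∣ T`: the first coefficient is `-27` times a number prime to `p`
    have hpS : ¬ (p : ℤ) ∣ S := fun h => hnot ⟨hpT, h⟩
    have hcu : ¬ (p : ℤ) ∣ T ^ 4 - 4 * T ^ 2 * S + S ^ 2 := by
      intro h
      apply hpS
      apply hpI.dvd_of_dvd_pow (n := 2)
      have e : S ^ 2 = (T ^ 4 - 4 * T ^ 2 * S + S ^ 2) - T * (T ^ 3 - 4 * T * S) := by ring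
      rw [e]
      exact dvd_sub h (Dvd.dvd.mul_right hpT _)
    have hcop : IsCoprime ((p : ℤ) ^ 4) (T ^ 4 - 4 * T ^ 2 * S + S ^ 2) :=
      IsCoprime.pow_left ((Prime.coprime_iff_not_dvd hpI).2 hcu)
    have h27 : (p : ℤ) ^ 4 ∣ -27 := hcop.dvd_of_dvd_mul_right k1
    have h27' : (p : ℤ) ^ 4 ≤ 27 := Int.le_of_dvd (by norm_num) ((dvd_neg).1 (by simpa using h27))
    have hp2 : (2 : ℤ) ≤ p := by exact_mod_cast hp.two_le
    have hp3 : (p : ℤ) = 2 := by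
      by_contra hne
      have h3 : (3 : ℤ) ≤ p := by omega
      have : (3 : ℤ) ^ 4 ≤ (p : ℤ) ^ 4 := by gcongr
      norm_num at this
      linarith
    rw [hp3] at h27
    revert h27
    decide
  · have hp23 : ¬ (p : ℤ) ∣ 2 * 3 := by
      intro h
      exact hpT (dvd_trans (by norm_num at h; exact h) h6)
    have hp3 : ¬ (p : ℤ) ∣ 3 := fun h => hp23 (Dvd.dvd.mul_left h _)
    have hp27 : ¬ (p : ℤ) ∣ 27 := by
      intro h
      apply hp3
      apply hpI.dvd_of_dvd_pow (n := 3)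
      norm_num
      exact h
    have d1 : (p : ℤ) ∣ -27 * (T ^ 4 - 4 * T ^ 2 * S + S ^ 2) :=
      dvd_trans (dvd_pow_self _ (by norm_num)) k1
    have d2 : (p : ℤ) ∣ 27 * ((T ^ 2 - 2 * S) * (2 * T ^ 4 - 8 * T ^ 2 * S - S ^ 2)) :=
      dvd_trans (dvd_pow_self _ (by norm_num)) k2
    have hc4 : (p : ℤ) ∣ T ^ 4 - 4 * T ^ 2 * S + S ^ 2 := by
      rcases hpI.dvd_or_dvd d1 with h | h
      · exact absurd ((dvd_neg).1 h) hp27
      · exact h
    have hS : (p : ℤ) ∣ S := by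
      rcases hpI.dvd_or_dvd d2 with h | h
      · exact absurd h hp27
      rcases hpI.dvd_or_dvd h with h | h
      · have e : 3 * S ^ 2 = (T ^ 2 - 2 * S) * (T ^ 2 - 2 * S) -
            (T ^ 4 - 4 * T ^ 2 * S + S ^ 2) := by ring
        have hd : (p : ℤ) ∣ 3 * S ^ 2 := by
          rw [e]
          exact dvd_sub (Dvd.dvd.mul_right h _) hc4
        rcases hpI.dvd_or_dvd hd with h' | h'
        · exact absurd h' hp3
        · exact hpI.dvd_of_dvd_pow h'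
      · have e : 3 * S ^ 2 = 2 * (T ^ 4 - 4 * T ^ 2 * S + S ^ 2) -
            (2 * T ^ 4 - 8 * T ^ 2 * S - S ^ 2) := by ring
        have hd : (p : ℤ) ∣ 3 * S ^ 2 := by
          rw [e]
          exact dvd_sub (Dvd.dvd.mul_left hc4 _) h
        rcases hpI.dvd_or_dvd hd with h' | h'
        · exact absurd h' hp3
        · exact hpI.dvd_of_dvd_pow h'
    exact hTS hS hc4

/-- the point of order four -/
lemma dd_four {T S : ℤ} (hT : T ≠ 0) (hS : S ≠ 0) : HasC 4 (Sh (dd T S).1 (dd T S).2) := by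
  have hT' : (T : ℚ) ≠ 0 := by exact_mod_cast hT
  have hS' : (S : ℚ) ≠ 0 := by exact_mod_cast hS
  have hA : (((dd T S).1 : ℤ) : ℚ) = -27 * ((T : ℚ) ^ 4 - 4 * (T : ℚ) ^ 2 * S + (S : ℚ) ^ 2) := by
    simp only [dd]
    push_cast
    ring
  have hB : (((dd T S).2 : ℤ) : ℚ) = 27 * (((T : ℚ) ^ 2 - 2 * S) * (2 * (T : ℚ) ^ 4 -
      8 * (T : ℚ) ^ 2 * S - (S : ℚ) ^ 2)) := by
    simp only [dd]
    push_cast
    ring
  have hy : 27 * (T : ℚ) * S ≠ 0 := by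
    simp [hT', hS']
  generalize (dd T S).1 = A at hA ⊢
  generalize (dd T S).2 = B at hB ⊢
  have hP : (Sh A B).toAffine.Nonsingular (3 * (T : ℚ) ^ 2 + 3 * S) (27 * T * S) := by
    apply nons _ (Or.inl hy)
    rw [hA, hB]; ring
  have hR : (Sh A B).toAffine.Nonsingular (3 * (T : ℚ) ^ 2 - 6 * S) 0 := by
    apply nons _ (Or.inr _)
    · rw [hA, hB]; ring
    · rw [hA]
      have : 3 * (3 * (T : ℚ) ^ 2 - 6 * S) ^ 2 + -27 * ((T : ℚ) ^ 4 - 4 * (T : ℚ) ^ 2 * S +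
          (S : ℚ) ^ 2) = 81 * (S : ℚ) ^ 2 := by ring
      rw [this]; positivity
  set P : (Sh A B).toAffine.Point := .some _ _ hP with hPd
  set R : (Sh A B).toAffine.Point := .some _ _ hR with hRd
  have hRR : R + R = 0 := by
    rw [hRd]
    apply Affine.Point.add_self_of_Y_eq
    rw [neg_y]; simp
  have hPP : P + P = R := by
    have hne : 27 * (T : ℚ) * S ≠ (Sh A B).toAffine.negY (3 * (T : ℚ) ^ 2 + 3 * S)
        (27 * T * S) := by
      rw [neg_y]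
      intro h
      apply hy
      linarith
    have hsl : (Sh A B).toAffine.slope (3 * (T : ℚ) ^ 2 + 3 * S) (3 * (T : ℚ) ^ 2 + 3 * S)
        (27 * T * S) (27 * T * S) = 3 * T := by
      rw [Affine.slope_of_Y_ne rfl hne, neg_y]
      simp only [Sh]
      rw [hA, div_eq_iff (by intro h; apply hy; linarith)]
      ring
    rw [hPd, Affine.Point.add_self_of_Y_ne hne, hRd, Affine.Point.some.injEq, hsl]
    constructor
    · simp only [Affine.addX, Sh]; ring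
    · simp only [Affine.addY, Affine.negAddY, Affine.negY, Affine.addX, Sh]; ring
  have hR0 : R ≠ 0 := Affine.Point.some_ne_zero hR
  have h2P : 2 • P = R := by rw [two_nsmul, hPP]
  have h4P : 4 • P = 0 := by
    have : (4 : ℕ) • P = 2 • (2 • P) := by rw [← mul_nsmul]
    rw [this, h2P, two_nsmul, hRR]
  refine ⟨P, ?_⟩
  have := addOrderOf_eq_prime_pow (x := P) (p := 2) (n := 1) (by simp [h2P, hR0]) h4P
  simpa using this

lemma dd_mem {T S : ℤ} {X H : ℕ} (hT : 0 < T) (hS : 0 < S) (hTX : T ≤ (X : ℤ))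
    (hSX : S ≤ (X : ℤ) ^ 2) (hc : IsCoprime T S) (h6 : (6 : ℤ) ∣ T)
    (hH : 22000000 * X ^ 12 ≤ H) : dd T S ∈ CvC 4 H := by
  have hH' : 22000000 * (X : ℤ) ^ 12 ≤ (H : ℤ) := by exact_mod_cast hH
  have hX : (0 : ℤ) ≤ (X : ℤ) := by positivity
  have t2 : T ^ 2 ≤ (X : ℤ) ^ 2 := by gcongr
  have t4 : T ^ 4 ≤ (X : ℤ) ^ 4 := by gcongr
  have s2 : S ^ 2 ≤ (X : ℤ) ^ 4 := by
    calc S ^ 2 ≤ ((X : ℤ) ^ 2) ^ 2 := by gcongr
      _ = (X : ℤ) ^ 4 := by ring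
  have ts : T ^ 2 * S ≤ (X : ℤ) ^ 4 := by
    calc T ^ 2 * S ≤ (X : ℤ) ^ 2 * (X : ℤ) ^ 2 := by gcongr
      _ = (X : ℤ) ^ 4 := by ring
  have p2 : 0 < T ^ 2 := by positivity
  have p4 : 0 < T ^ 4 := by positivity
  have q2 : 0 < S ^ 2 := by positivity
  have r2 : 0 < T ^ 2 * S := by positivity
  have b1 : |(dd T S).1| ≤ 162 * (X : ℤ) ^ 4 := by
    simp only [dd]
    rw [abs_le]
    constructor <;> nlinarith
  have b2 : |(dd T S).2| ≤ 891 * (X : ℤ) ^ 6 := by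
    simp only [dd]
    have c1 : |T ^ 2 - 2 * S| ≤ 3 * (X : ℤ) ^ 2 := by
      rw [abs_le]
      constructor <;> linarith
    have c2 : |2 * T ^ 4 - 8 * T ^ 2 * S - S ^ 2| ≤ 11 * (X : ℤ) ^ 4 := by
      rw [abs_le]
      constructor <;> nlinarith
    rw [abs_mul, abs_mul]
    calc |(27 : ℤ)| * (|T ^ 2 - 2 * S| * |2 * T ^ 4 - 8 * T ^ 2 * S - S ^ 2|) ≤
        27 * ((3 * (X : ℤ) ^ 2) * (11 * (X : ℤ) ^ 4)) := by
          rw [show |(27 : ℤ)| = 27 by norm_num]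
          gcongr
      _ = 891 * (X : ℤ) ^ 6 := by ring
  have g1 : 4 * |(dd T S).1| ^ 3 ≤ (H : ℤ) := by
    calc 4 * |(dd T S).1| ^ 3 ≤ 4 * (162 * (X : ℤ) ^ 4) ^ 3 := by gcongr
      _ = 17006112 * (X : ℤ) ^ 12 := by ring
      _ ≤ 22000000 * (X : ℤ) ^ 12 := by gcongr; norm_num
      _ ≤ _ := hH'
  have g2 : 27 * (dd T S).2 ^ 2 ≤ (H : ℤ) := by
    rw [← sq_abs]
    calc 27 * |(dd T S).2| ^ 2 ≤ 27 * (891 * (X : ℤ) ^ 6) ^ 2 := by gcongr
      _ = 21434787 * (X : ℤ) ^ 12 := by ring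
      _ ≤ 22000000 * (X : ℤ) ^ 12 := by gcongr; norm_num
      _ ≤ _ := hH'
  have k1 : |(dd T S).1| ≤ (H : ℤ) := by
    refine le_trans ?_ g1
    have h0 := abs_nonneg (dd T S).1
    generalize |(dd T S).1| = a at h0 ⊢
    rcases h0.eq_or_lt with h | h
    · rw [← h]; norm_num
    · have h1 : 1 ≤ a := h
      have h2 : 1 ≤ a ^ 2 := one_le_pow₀ h1
      nlinarith
  have k2 : |(dd T S).2| ≤ (H : ℤ) := by
    refine le_trans ?_ g2
    rw [← sq_abs]
    have h0 := abs_nonneg (dd T S).2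
    generalize |(dd T S).2| = a at h0 ⊢
    rcases h0.eq_or_lt with h | h
    · rw [← h]; norm_num
    · have h1 : 1 ≤ a := h
      nlinarith
  rw [abs_le] at k1 k2
  have hne : T ^ 2 ≠ 4 * S := by
    intro h
    have h2T : (2 : ℤ) ∣ T := dvd_trans (by norm_num) h6
    have h3T : (3 : ℤ) ∣ T := dvd_trans (by norm_num) h6
    have h3S : (3 : ℤ) ∣ S := by
      have h3 : (3 : ℤ) ∣ 4 * S := by rw [← h]; exact Dvd.dvd.pow h3T (by norm_num)
      rcases Int.prime_three.dvd_or_dvd h3 with h' | h'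
      · exact absurd h' (by decide)
      · exact h'
    exact absurd (hc.isUnit_of_dvd' h3T h3S) (by decide)
  simp only [CvC, mem_filter, mem_product, mem_Icc]
  exact ⟨⟨k1, k2⟩, dd_disc_ne hT.ne' hS.ne' hne, g1, g2, dd_min hc h6, dd_four hT.ne' hS.ne'⟩

theorem t_K4 : S_K4 := by
  refine ⟨1 / 1728, 22000000, 6, by norm_num, fun T H hT hH => ?_⟩
  have h1 : (SC 6 T ×ˢ range T).card ≤ (CvC 4 H).card := by
    apply card_le_card_of_injOn (fun w : (Σ _ : ℕ, ℕ) × ℕ =>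
      dd ((6 * w.1.1 : ℕ) : ℤ) ((w.2 * (6 * w.1.1) + w.1.2 : ℕ) : ℤ))
    · rintro ⟨t, j⟩ ht
      obtain ⟨ht1, ht2⟩ := mem_product.1 (show (t, j) ∈ SC 6 T ×ˢ range T from ht)
      simp only at ht1 ht2
      obtain ⟨k1, k2, k3, k4, k5⟩ := mem_SC (r := 6) (by norm_num) ht1
      rw [mem_range] at ht2
      have hS : j * (6 * t.1) + t.2 ≤ T ^ 2 := by
        have : (j + 1) * (6 * t.1) ≤ T * T := Nat.mul_le_mul ht2 k4
        nlinarith
      refine dd_mem (X := T) ?_ ?_ ?_ ?_ ?_ ?_ hH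
      · exact_mod_cast (by omega : 0 < 6 * t.1)
      · exact_mod_cast (by omega : 0 < j * (6 * t.1) + t.2)
      · exact_mod_cast k4
      · exact_mod_cast hS
      · refine Nat.isCoprime_iff_coprime.2 ?_
        rw [add_comm, Nat.coprime_add_mul_right_right]
        exact k5
      · push_cast
        exact Dvd.intro _ rfl
    · rintro ⟨t, j⟩ ht ⟨t', j'⟩ ht' h
      obtain ⟨ht1, ht2⟩ := mem_product.1 (show (t, j) ∈ SC 6 T ×ˢ range T from ht)
      obtain ⟨ht1', ht2'⟩ := mem_product.1 (show (t', j') ∈ SC 6 T ×ˢ range T from ht')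
      simp only at ht1 ht2 ht1' ht2'
      obtain ⟨k1, k2, k3, k4, k5⟩ := mem_SC (r := 6) (by norm_num) ht1
      obtain ⟨k1', k2', k3', k4', k5'⟩ := mem_SC (r := 6) (by norm_num) ht1'
      obtain ⟨q1, q2⟩ := dd_inj (by exact_mod_cast (by omega : 0 < 6 * t.1))
        (by exact_mod_cast (by omega : 0 < 6 * t'.1))
        (by exact_mod_cast (by omega : 0 < j * (6 * t.1) + t.2))
        (by exact_mod_cast (by omega : 0 < j' * (6 * t'.1) + t'.2)) h
      have q1' : 6 * t.1 = 6 * t'.1 := by exact_mod_cast q1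
      have q2' : j * (6 * t.1) + t.2 = j' * (6 * t'.1) + t'.2 := by exact_mod_cast q2
      rw [← q1'] at q2' k3'
      have m1 : t.2 = t'.2 := by
        have := congrArg (fun x => x % (6 * t.1)) q2'
        simp only [Nat.mul_add_mod_self_right, Nat.mul_comm j, Nat.mul_comm j',
          Nat.mul_add_mod, Nat.mod_eq_of_lt k3, Nat.mod_eq_of_lt k3'] at this
        exact this
      have m2 : j = j' := by
        rw [m1] at q2'
        exact Nat.eq_of_mul_eq_mul_right (by omega) (Nat.add_right_cancel q2')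
      rw [m2]
      congr 1
      exact Sigma.ext (by omega) (heq_of_eq m1)
  have h3 := card_SC' 6 T (by norm_num) hT
  rw [card_product, card_range] at h1
  have h4 : ((SC 6 T).card : ℝ) * (T : ℝ) ≤ ((CvC 4 H).card : ℝ) := by exact_mod_cast h1
  have hT0 : (0 : ℝ) ≤ T := Nat.cast_nonneg _
  push_cast at h3
  have h5 : (T : ℝ) ^ 2 * T ≤ 1728 * ((SC 6 T).card : ℝ) * T := by
    have : (T : ℝ) ^ 2 ≤ 1728 * ((SC 6 T).card : ℝ) := by linarith
    gcongr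
  nlinarith

end Pool.Agent.V7H63.CY
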