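import Pool.Agent.V7H63.CY.L8
import Pool.Agent.W376.RTL.Pts

/-!
# There are many curves with a point of order twelve
-/

set_option autoImplicit false

namespace Pool.Agent.V7H63.CY

open Finset Pool.Agent.W307.RT WeierstrassCurve Pool.Agent.V7H45.CY
open Pool.Agent.W29.RT (nons neg_y totient_sum)

/-- the form `M` -/
def m12 (a b : ℤ) : ℤ := 16 * a ^ 6 * b ^ 2
/-- the form `N` -/
def n12 (a b : ℤ) : ℤ := (b ^ 2 - a ^ 2) ^ 3 * (b ^ 2 + 3 * a ^ 2)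

lemma n12_neg {a b : ℤ} (hb : 0 < b) (hba : b < a) : n12 a b < 0 := by
  have h1 : 0 < a ^ 2 - b ^ 2 := by nlinarith
  have e : n12 a b = -((a ^ 2 - b ^ 2) ^ 3 * (b ^ 2 + 3 * a ^ 2)) := by unfold n12; ring
  have h2 : 0 < (a ^ 2 - b ^ 2) ^ 3 * (b ^ 2 + 3 * a ^ 2) := by positivity
  rw [e]
  linarith

lemma m12_pos {a b : ℤ} (hb : 0 < b) (hba : b < a) : 0 < m12 a b := by
  have h1 : 0 < a := by linarith
  unfold m12
  positivity

/-- the point of order twelve -/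
lemma hasC12 {a b : ℤ} (hb : 0 < b) (hba : b < a) :
    HasC 12 (Sh (cc (m12 a b) (n12 a b)).1 (cc (m12 a b) (n12 a b)).2) := by
  have hb' : (0 : ℚ) < b := by exact_mod_cast hb
  have hba' : (b : ℚ) < a := by exact_mod_cast hba
  have ha' : (0 : ℚ) < a := by linarith
  have hn : n12 a b ≠ 0 := (n12_neg hb hba).ne
  obtain ⟨h4, ho⟩ := cc_four (M := m12 a b) (N := n12 a b) (t := 4 * (a : ℚ) ^ 3 * b)
    (by unfold m12; push_cast; ring) (by positivity) hn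
  have hM : ((m12 a b : ℤ) : ℚ) = 16 * (a : ℚ) ^ 6 * (b : ℚ) ^ 2 := by
    unfold m12; push_cast; ring
  have hN : ((n12 a b : ℤ) : ℚ) = ((b : ℚ) ^ 2 - (a : ℚ) ^ 2) ^ 3 *
      ((b : ℚ) ^ 2 + 3 * (a : ℚ) ^ 2) := by unfold n12; push_cast; ring
  have hA : (((cc (m12 a b) (n12 a b)).1 : ℤ) : ℚ) = -27 * (16 * ((m12 a b : ℤ) : ℚ) ^ 2 -
      16 * ((m12 a b : ℤ) : ℚ) * ((n12 a b : ℤ) : ℚ) + ((n12 a b : ℤ) : ℚ) ^ 2) := by
    simp only [cc]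
    push_cast
    ring
  have hB : (((cc (m12 a b) (n12 a b)).2 : ℤ) : ℚ) =
      54 * ((2 * ((m12 a b : ℤ) : ℚ) - ((n12 a b : ℤ) : ℚ)) * (32 * ((m12 a b : ℤ) : ℚ) ^ 2 -
      32 * ((m12 a b : ℤ) : ℚ) * ((n12 a b : ℤ) : ℚ) - ((n12 a b : ℤ) : ℚ) ^ 2)) := by
    simp only [cc]
    push_cast
    ring
  rw [hM, hN] at hA hB
  generalize (cc (m12 a b) (n12 a b)).1 = A at hA h4 ho ⊢
  generalize (cc (m12 a b) (n12 a b)).2 = B at hB h4 ho ⊢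
  have hsq : (0 : ℚ) < ((b : ℚ) ^ 2 - (a : ℚ) ^ 2) ^ 4 := by
    have h1 : (0 : ℚ) < (a : ℚ) ^ 2 - (b : ℚ) ^ 2 := by nlinarith
    have e : ((b : ℚ) ^ 2 - (a : ℚ) ^ 2) ^ 4 = ((a : ℚ) ^ 2 - (b : ℚ) ^ 2) ^ 4 := by ring
    rw [e]
    positivity
  obtain ⟨x3, hx3⟩ : ∃ x3 : ℚ, x3 = 9 * ((b : ℚ) ^ 2 - (a : ℚ) ^ 2) ^ 4 +
    12 * (16 * (a : ℚ) ^ 6 * (b : ℚ) ^ 2) -
    6 * (((b : ℚ) ^ 2 - (a : ℚ) ^ 2) ^ 3 * ((b : ℚ) ^ 2 + 3 * (a : ℚ) ^ 2)) := ⟨_, rfl⟩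
  obtain ⟨y3, hy3⟩ : ∃ y3 : ℚ, y3 = 108 * (((b : ℚ) ^ 2 - (a : ℚ) ^ 2) ^ 4 *
    ((a : ℚ) ^ 2 * ((a : ℚ) ^ 2 + (b : ℚ) ^ 2))) := ⟨_, rfl⟩
  have hy30 : y3 ≠ 0 := by rw [hy3]; positivity
  have hP3 : (Sh A B).toAffine.Nonsingular x3 y3 := by
    apply nons _ (Or.inl hy30)
    rw [hA, hB, hx3, hy3]
    ring
  have o3 := Pool.Agent.W376.RTL.three_tors
    (l := 3 * (3 * (a : ℚ) ^ 4 + 6 * (a : ℚ) ^ 2 * (b : ℚ) ^ 2 - (b : ℚ) ^ 4)) hP3 hy30 (by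
    rw [hA, hx3, hy3]
    ring) (by
    rw [hx3]
    ring)
  refine ⟨.some _ _ hP3 + .some _ _ h4, ?_⟩
  rw [(AddCommute.all _ _).addOrderOf_add_eq_mul_addOrderOf_of_coprime (by
      rw [ho, o3]; norm_num), ho, o3]

/-- the identity of the injectivity -/
lemma mono12 {p q p' q' : ℝ} (hp : 0 < p) (hq' : 0 < q') (hpp : p < p')
    (h1 : p ^ 3 * q = p' ^ 3 * q') :
    3 * p ^ 4 + 6 * p ^ 2 * q ^ 2 - q ^ 4 < 3 * p' ^ 4 + 6 * p' ^ 2 * q' ^ 2 - q' ^ 4 := by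
  obtain ⟨t, ht⟩ : ∃ t : ℝ, t = p' / p := ⟨_, rfl⟩
  have ht1 : 1 < t := by rw [ht, one_lt_div hp]; exact hpp
  have e1 : p' = t * p := by rw [ht]; field_simp
  have e2 : q = t ^ 3 * q' := by
    rw [e1] at h1
    have h2 : p ^ 3 * q = p ^ 3 * (t ^ 3 * q') := by rw [h1]; ring
    exact mul_left_cancel₀ (by positivity) h2
  have key : (3 * p' ^ 4 + 6 * p' ^ 2 * q' ^ 2 - q' ^ 4) - (3 * p ^ 4 + 6 * p ^ 2 * q ^ 2 - q ^ 4) =
      (t ^ 4 - 1) * (3 * (p ^ 2 - t ^ 2 * q' ^ 2) ^ 2 + q' ^ 4 * (t ^ 4 - 1) ^ 2) := by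
    rw [e1, e2]
    ring
  have h3 : 0 < t ^ 4 - 1 := by
    have : 1 < t ^ 4 := one_lt_pow₀ ht1 (by norm_num)
    linarith
  have h4 : 0 < (t ^ 4 - 1) * (3 * (p ^ 2 - t ^ 2 * q' ^ 2) ^ 2 + q' ^ 4 * (t ^ 4 - 1) ^ 2) := by
    positivity
  linarith

lemma inj12' {p q p' q' : ℤ} (hp : 0 < p) (hq : 0 < q) (hp' : 0 < p') (hq' : 0 < q')
    (h1 : p ^ 3 * q = p' ^ 3 * q')
    (h2 : (q - p) ^ 3 * (q + 3 * p) = (q' - p') ^ 3 * (q' + 3 * p')) : p = p' ∧ q = q' := by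
  have h1r : (p : ℝ) ^ 3 * q = (p' : ℝ) ^ 3 * q' := by exact_mod_cast h1
  have h2r : ((q : ℝ) - p) ^ 3 * (q + 3 * p) = ((q' : ℝ) - p') ^ 3 * (q' + 3 * p') := by
    exact_mod_cast h2
  have hp_ : (0 : ℝ) < p := by exact_mod_cast hp
  have hq_ : (0 : ℝ) < q := by exact_mod_cast hq
  have hp'_ : (0 : ℝ) < p' := by exact_mod_cast hp'
  have hq'_ : (0 : ℝ) < q' := by exact_mod_cast hq'
  have e : 3 * (p : ℝ) ^ 4 + 6 * (p : ℝ) ^ 2 * (q : ℝ) ^ 2 - (q : ℝ) ^ 4 =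
      3 * (p' : ℝ) ^ 4 + 6 * (p' : ℝ) ^ 2 * (q' : ℝ) ^ 2 - (q' : ℝ) ^ 4 := by
    linear_combination -h2r + 8 * h1r
  have hpp : p = p' := by
    rcases lt_trichotomy p p' with h | h | h
    · exfalso
      have := mono12 hp_ hq'_ (by exact_mod_cast h) h1r
      linarith
    · exact h
    · exfalso
      have := mono12 hp'_ hq_ (by exact_mod_cast h) h1r.symm
      linarith
  refine ⟨hpp, ?_⟩
  rw [hpp] at h1
  exact mul_left_cancel₀ (by positivity) h1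

lemma inj12 {a b a' b' : ℤ} (hb : 0 < b) (hba : b < a) (hb' : 0 < b') (hba' : b' < a')
    (h : cc (m12 a b) (n12 a b) = cc (m12 a' b') (n12 a' b')) : a = a' ∧ b = b' := by
  have ha : 0 < a := by linarith
  have ha' : 0 < a' := by linarith
  obtain ⟨e1, e2⟩ := cc_inj (m12_pos hb hba) (m12_pos hb' hba') h
    (mul_pos_of_neg_of_neg (n12_neg hb hba) (n12_neg hb' hba'))
  unfold m12 at e1
  unfold n12 at e2
  obtain ⟨f1, f2⟩ := inj12' (p := a ^ 2) (q := b ^ 2) (p' := a' ^ 2) (q' := b' ^ 2)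
    (by positivity) (by positivity) (by positivity) (by positivity) (by
      have : 16 * ((a ^ 2) ^ 3 * b ^ 2) = 16 * ((a' ^ 2) ^ 3 * b' ^ 2) := by
        linear_combination e1
      exact mul_left_cancel₀ (by norm_num) this) e2
  exact ⟨(pow_left_inj₀ ha.le ha'.le (by norm_num)).1 f1,
    (pow_left_inj₀ hb.le hb'.le (by norm_num)).1 f2⟩

lemma cop12 {a b : ℤ} (h : IsCoprime a b) (h3 : IsCoprime b 3) (h2 : (2 : ℤ) ∣ a) :
    IsCoprime (m12 a b) (n12 a b) ∧ IsCoprime 2 (n12 a b) := by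
  have hb2 : IsCoprime 2 b := by
    obtain ⟨c, rfl⟩ := h2
    exact h.of_mul_left_left
  have e1 : ∀ m : ℤ, m ∣ a → IsCoprime m b → IsCoprime m (n12 a b) := by
    intro m hm hmb
    obtain ⟨c, hc⟩ := hm
    unfold n12
    apply IsCoprime.mul_right
    · apply IsCoprime.pow_right
      have e : b ^ 2 - a ^ 2 = b ^ 2 + m * (-(c * a)) := by rw [hc]; ring
      rw [e]
      exact IsCoprime.add_mul_left_right hmb.pow_right _
    · have e : b ^ 2 + 3 * a ^ 2 = b ^ 2 + m * (3 * (c * a)) := by rw [hc]; ring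
      rw [e]
      exact IsCoprime.add_mul_left_right hmb.pow_right _
  have k2 : IsCoprime 2 (n12 a b) := e1 2 h2 hb2
  refine ⟨?_, k2⟩
  have k1 : IsCoprime a (n12 a b) := e1 a dvd_rfl h
  have k3 : IsCoprime b (n12 a b) := by
    unfold n12
    apply IsCoprime.mul_right
    · apply IsCoprime.pow_right
      have e : b ^ 2 - a ^ 2 = -(a ^ 2) + b * b := by ring
      rw [e]
      exact IsCoprime.add_mul_left_right (h.symm.pow_right.neg_right) _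
    · have e : b ^ 2 + 3 * a ^ 2 = 3 * a ^ 2 + b * b := by ring
      rw [e]
      exact IsCoprime.add_mul_left_right (IsCoprime.mul_right h3 h.symm.pow_right) _
  unfold m12
  refine IsCoprime.mul_left (IsCoprime.mul_left ?_ k1.pow_left) k3.pow_left
  have : (16 : ℤ) = 2 ^ 4 := by norm_num
  rw [this]
  exact k2.pow_left

lemma mem12 {a b : ℤ} {T H : ℕ} (hb : 0 < b) (hba : b < a) (haT : a ≤ (T : ℤ))
    (hcop : IsCoprime a b) (h6 : (6 : ℤ) ∣ a) (hH : 50331648000000000 * T ^ 48 ≤ H) :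
    cc (m12 a b) (n12 a b) ∈ CvC 12 H := by
  have ha : 0 < a := by linarith
  have hT0 : (0 : ℤ) ≤ (T : ℤ) := by positivity
  have h2a : (2 : ℤ) ∣ a := dvd_trans (by norm_num) h6
  have h3a : (3 : ℤ) ∣ a := dvd_trans (by norm_num) h6
  have hb3 : IsCoprime b 3 := by
    obtain ⟨c, rfl⟩ := h3a
    exact hcop.symm.of_mul_right_left
  obtain ⟨k1, k2⟩ := cop12 hcop hb3 h2a
  have hm := m12_pos hb hba
  have hn := n12_neg hb hba
  have hsub : 0 < a ^ 2 - b ^ 2 := by nlinarith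
  refine cc_mem (S := 16 * (T : ℤ) ^ 8) hm.ne' hn.ne (by linarith) k1 ?_ ?_ ?_ ?_ ?_
    (hasC12 hb hba)
  · intro h
    exact absurd (k2.isUnit_of_dvd' dvd_rfl h) (by decide)
  · intro h
    have h3m : (3 : ℤ) ∣ m12 a b := by
      unfold m12
      exact Dvd.dvd.mul_right (Dvd.dvd.mul_left (Dvd.dvd.pow h3a (by norm_num)) _) _
    have h3n : (3 : ℤ) ∣ n12 a b := by
      have e : n12 a b = (m12 a b + n12 a b) - m12 a b := by ring
      rw [e]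
      exact dvd_sub h h3m
    exact absurd (k1.isUnit_of_dvd' h3m h3n) (by decide)
  · rw [abs_of_pos hm]
    unfold m12
    have hbT : b ≤ (T : ℤ) := by linarith
    calc 16 * a ^ 6 * b ^ 2 ≤ 16 * (T : ℤ) ^ 6 * (T : ℤ) ^ 2 := by gcongr
      _ = 16 * (T : ℤ) ^ 8 := by ring
  · rw [abs_of_neg hn]
    have e : -n12 a b = (a ^ 2 - b ^ 2) ^ 3 * (b ^ 2 + 3 * a ^ 2) := by unfold n12; ring
    rw [e]
    have h8 : a ^ 2 ≤ (T : ℤ) ^ 2 := by gcongr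
    have h9 : a ^ 2 - b ^ 2 ≤ (T : ℤ) ^ 2 := by nlinarith
    have h10 : b ^ 2 + 3 * a ^ 2 ≤ 16 * (T : ℤ) ^ 2 := by nlinarith
    calc (a ^ 2 - b ^ 2) ^ 3 * (b ^ 2 + 3 * a ^ 2) ≤ ((T : ℤ) ^ 2) ^ 3 * (16 * (T : ℤ) ^ 2) := by
          gcongr
      _ = 16 * (T : ℤ) ^ 8 := by ring
  · have : (50331648000000000 : ℤ) * (T : ℤ) ^ 48 ≤ (H : ℤ) := by exact_mod_cast hH
    calc (3000000000 : ℤ) * (16 * (T : ℤ) ^ 8) ^ 6 = 50331648000000000 * (T : ℤ) ^ 48 := by ring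
      _ ≤ _ := this

theorem t_L12 : S_L12 := by
  refine ⟨1 / 1728, 50331648000000000, 6, by norm_num, fun T H hT hH => ?_⟩
  have h1 : (SC 6 T).card ≤ (CvC 12 H).card := by
    apply card_le_card_of_injOn (fun t : (Σ _ : ℕ, ℕ) =>
      cc (m12 ((6 * t.1 : ℕ) : ℤ) (t.2 : ℤ)) (n12 ((6 * t.1 : ℕ) : ℤ) (t.2 : ℤ)))
    · intro t ht
      obtain ⟨k1, k2, k3, k4, k5⟩ := mem_SC (r := 6) (by norm_num) (show t ∈ SC 6 T from ht)
      exact mem12 (by exact_mod_cast k2) (by exact_mod_cast k3) (by exact_mod_cast k4)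
        (Nat.isCoprime_iff_coprime.2 k5) (by push_cast; exact Dvd.intro _ rfl) hH
    · intro t ht t' ht' h
      obtain ⟨k1, k2, k3, k4, k5⟩ := mem_SC (r := 6) (by norm_num) (show t ∈ SC 6 T from ht)
      obtain ⟨k1', k2', k3', k4', k5'⟩ := mem_SC (r := 6) (by norm_num)
        (show t' ∈ SC 6 T from ht')
      obtain ⟨q2, q1⟩ := inj12 (by exact_mod_cast k2) (by exact_mod_cast k3)
        (by exact_mod_cast k2') (by exact_mod_cast k3') h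
      have q1' : t.2 = t'.2 := by exact_mod_cast q1
      have q2' : 6 * t.1 = 6 * t'.1 := by exact_mod_cast q2
      exact Sigma.ext (by omega) (heq_of_eq q1')
  have h3 := card_SC' 6 T (by norm_num) hT
  have h4 : ((SC 6 T).card : ℝ) ≤ ((CvC 12 H).card : ℝ) := by exact_mod_cast h1
  push_cast at h3
  linarith

end Pool.Agent.V7H63.CY
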