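import Pool.Agent.V7H45.CY.Spec
import Pool.Agent.W29.RT.LOW4

/-!
# The curves `y² = x (x² + (M - N / 2) x + N² / 16)`, rescaled
-/

set_option autoImplicit false

namespace Pool.Agent.V7H63.CY

open Finset Pool.Agent.W307.RT WeierstrassCurve Pool.Agent.V7H45.CY
open Pool.Agent.W29.RT (nons neg_y totient_sum)

/-- the coefficients -/
def cc (M N : ℤ) : ℤ × ℤ :=
  (-27 * (16 * M ^ 2 - 16 * M * N + N ^ 2), 54 * ((2 * M - N) * (32 * M ^ 2 - 32 * M * N - N ^ 2)))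

lemma cc_disc (M N : ℤ) : 4 * (cc M N).1 ^ 3 + 27 * (cc M N).2 ^ 2 =
    -8503056 * (N ^ 4 * M * (M - N)) := by
  simp only [cc]
  ring

lemma cc_disc_ne {M N : ℤ} (hM : M ≠ 0) (hN : N ≠ 0) (hMN : M ≠ N) :
    4 * (cc M N).1 ^ 3 + 27 * (cc M N).2 ^ 2 ≠ 0 := by
  rw [cc_disc]
  have : M - N ≠ 0 := sub_ne_zero.2 hMN
  simp [hM, hN, this]

lemma cc_cubic (M N x : ℤ) : x ^ 3 + (cc M N).1 * x + (cc M N).2 =
    (x - (12 * M - 6 * N)) * ((x - (12 * M - 6 * N) - 9 * N) ^ 2 +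
      36 * M * (x - (12 * M - 6 * N))) := by
  simp only [cc]
  ring

lemma cc_le {M N x : ℤ} (hM : 0 < M) (h : x ^ 3 + (cc M N).1 * x + (cc M N).2 = 0) :
    x ≤ 12 * M - 6 * N := by
  rw [cc_cubic] at h
  by_contra hc
  push Not at hc
  have h1 : 0 < x - (12 * M - 6 * N) := by linarith
  have h2 : 0 < (x - (12 * M - 6 * N) - 9 * N) ^ 2 + 36 * M * (x - (12 * M - 6 * N)) := by
    positivity
  have h3 := mul_pos h1 h2
  linarith

lemma cc_root (M N : ℤ) : (12 * M - 6 * N) ^ 3 + (cc M N).1 * (12 * M - 6 * N) + (cc M N).2 = 0 := by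
  rw [cc_cubic]
  ring

lemma cc_inj {M N M' N' : ℤ} (hM : 0 < M) (hM' : 0 < M') (h : cc M N = cc M' N')
    (hN : 0 < N * N') : M = M' ∧ N = N' := by
  have e1 : 12 * M - 6 * N ≤ 12 * M' - 6 * N' := by
    apply cc_le hM'
    rw [← h]
    exact cc_root M N
  have e2 : 12 * M' - 6 * N' ≤ 12 * M - 6 * N := by
    apply cc_le hM
    rw [h]
    exact cc_root M' N'
  have e3 : 12 * M - 6 * N = 12 * M' - 6 * N' := le_antisymm e1 e2
  have f1 : 3 * (12 * M - 6 * N) ^ 2 + (cc M N).1 = 81 * N ^ 2 := by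
    simp only [cc]
    ring
  have f2 : 3 * (12 * M' - 6 * N') ^ 2 + (cc M' N').1 = 81 * N' ^ 2 := by
    simp only [cc]
    ring
  rw [e3, h, f2] at f1
  have f3 : N ^ 2 = N' ^ 2 := by linarith
  have f4 : N = N' := by
    rcases sq_eq_sq_iff_eq_or_eq_neg.1 f3 with h1 | h1
    · exact h1
    · exfalso
      rw [h1] at hN
      have : 0 ≤ N' ^ 2 := sq_nonneg _
      nlinarith
  exact ⟨by linarith, f4⟩

lemma cc_min {M N : ℤ} (hc : IsCoprime M N) (h2 : ¬ (2 : ℤ) ∣ N) (h3 : ¬ (3 : ℤ) ∣ M + N) :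
    ∀ p : ℕ, p.Prime → ¬ ((p : ℤ) ^ 4 ∣ (cc M N).1 ∧ (p : ℤ) ^ 6 ∣ (cc M N).2) := by
  rintro p hp ⟨k1, k2⟩
  have hpI : Prime (p : ℤ) := Nat.prime_iff_prime_int.1 hp
  have hnot : ¬ ((p : ℤ) ∣ M ∧ (p : ℤ) ∣ N) := by
    rintro ⟨ha, hb⟩
    exact hpI.not_isUnit (hc.isUnit_of_dvd' ha hb)
  simp only [cc] at k1 k2
  by_cases hp3 : p = 3
  · subst hp3
    apply h3
    have hp3 : Prime (3 : ℤ) := by exact_mod_cast hpI
    obtain ⟨c, hc'⟩ := k1
    push_cast at hc'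
    have e1 : (M + N) ^ 2 = 3 * (-c - 5 * M ^ 2 + 6 * M * N) := by linarith
    exact hp3.dvd_of_dvd_pow (n := 2) ⟨_, e1⟩
  have hp3' : ¬ (p : ℤ) ∣ 3 := by
    intro h
    have : p ∣ 3 := by exact_mod_cast h
    exact hp3 ((Nat.prime_dvd_prime_iff_eq hp Nat.prime_three).1 this)
  have d1 : (p : ℤ) ∣ -27 * (16 * M ^ 2 - 16 * M * N + N ^ 2) :=
    dvd_trans (dvd_pow_self _ (by norm_num)) k1
  have d2 : (p : ℤ) ∣ 54 * ((2 * M - N) * (32 * M ^ 2 - 32 * M * N - N ^ 2)) :=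
    dvd_trans (dvd_pow_self _ (by norm_num)) k2
  have hc4 : (p : ℤ) ∣ 16 * M ^ 2 - 16 * M * N + N ^ 2 := by
    rcases hpI.dvd_or_dvd d1 with h | h
    · exfalso
      apply hp3'
      apply hpI.dvd_of_dvd_pow (n := 3)
      have : (p : ℤ) ∣ -(-27) := (dvd_neg).2 h
      norm_num at this ⊢
      exact this
    · exact h
  have hp2 : ¬ (p : ℤ) ∣ 2 := by
    intro h
    have h2' : p ∣ 2 := by exact_mod_cast h
    have : p = 2 := (Nat.prime_dvd_prime_iff_eq hp Nat.prime_two).1 h2'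
    subst this
    apply h2
    have hp2 : Prime (2 : ℤ) := by exact_mod_cast hpI
    apply hp2.dvd_of_dvd_pow (n := 2)
    have e : N ^ 2 = (16 * M ^ 2 - 16 * M * N + N ^ 2) - 2 * (8 * M ^ 2 - 8 * M * N) := by ring
    rw [e]
    exact dvd_sub (by exact_mod_cast hc4) (Dvd.intro _ rfl)
  rcases hpI.dvd_or_dvd d2 with h | h
  · have : (p : ℤ) ∣ 2 * 3 ^ 3 := by norm_num; exact h
    rcases hpI.dvd_or_dvd this with h | h
    · exact hp2 h
    · exact hp3' (hpI.dvd_of_dvd_pow h)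
  rcases hpI.dvd_or_dvd h with h | h
  · -- `N ≡ 2 M`
    have e2 : (2 ^ 2 * 3) * M ^ 2 = (2 * M - N) * (14 * M - N) -
        (16 * M ^ 2 - 16 * M * N + N ^ 2) := by ring
    have hd : (p : ℤ) ∣ (2 ^ 2 * 3) * M ^ 2 := by
      rw [e2]
      exact dvd_sub (Dvd.dvd.mul_right h _) hc4
    have hM : (p : ℤ) ∣ M := by
      rcases hpI.dvd_or_dvd hd with h' | h'
      · exfalso
        rcases hpI.dvd_or_dvd h' with h'' | h''
        · exact hp2 (hpI.dvd_of_dvd_pow h'')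
        · exact hp3' h''
      · exact hpI.dvd_of_dvd_pow h'
    apply hnot
    refine ⟨hM, ?_⟩
    have e3 : N = 2 * M - (2 * M - N) := by ring
    rw [e3]
    exact dvd_sub (Dvd.dvd.mul_left hM _) h
  · have e : 3 * N ^ 2 = 2 * (16 * M ^ 2 - 16 * M * N + N ^ 2) -
        (32 * M ^ 2 - 32 * M * N - N ^ 2) := by ring
    have hd : (p : ℤ) ∣ 3 * N ^ 2 := by
      rw [e]
      exact dvd_sub (Dvd.dvd.mul_left hc4 _) h
    have hN : (p : ℤ) ∣ N := by
      rcases hpI.dvd_or_dvd hd with h' | h'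
      · exact absurd h' hp3'
      · exact hpI.dvd_of_dvd_pow h'
    have e2 : 2 ^ 4 * M ^ 2 = (16 * M ^ 2 - 16 * M * N + N ^ 2) - N * (N - 16 * M) := by ring
    have hd2 : (p : ℤ) ∣ 2 ^ 4 * M ^ 2 := by
      rw [e2]
      exact dvd_sub hc4 (Dvd.dvd.mul_right hN _)
    have hM : (p : ℤ) ∣ M := by
      rcases hpI.dvd_or_dvd hd2 with h' | h'
      · exact absurd (hpI.dvd_of_dvd_pow h') hp2
      · exact hpI.dvd_of_dvd_pow h'
    exact hnot ⟨hM, hN⟩

/-- bounds for the coefficients -/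
lemma cc_bound {M N S : ℤ} (hM : |M| ≤ S) (hN : |N| ≤ S) :
    |(cc M N).1| ≤ 891 * S ^ 2 ∧ |(cc M N).2| ≤ 10530 * S ^ 3 := by
  have hS : 0 ≤ S := (abs_nonneg M).trans hM
  have hM2 : |M ^ 2| ≤ S ^ 2 := by rw [abs_pow]; gcongr
  have hN2 : |N ^ 2| ≤ S ^ 2 := by rw [abs_pow]; gcongr
  have hMN : |M * N| ≤ S ^ 2 := by rw [abs_mul, sq]; gcongr
  have a1 := abs_le.1 hM2
  have a2 := abs_le.1 hN2
  have a3 := abs_le.1 hMN
  have a4 := abs_le.1 hM
  have a5 := abs_le.1 hN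
  constructor
  · simp only [cc]
    rw [abs_le]
    constructor <;> nlinarith
  · simp only [cc]
    have b1 : |2 * M - N| ≤ 3 * S := by
      rw [abs_le]
      constructor <;> linarith
    have b2 : |32 * M ^ 2 - 32 * M * N - N ^ 2| ≤ 65 * S ^ 2 := by
      rw [abs_le]
      constructor <;> nlinarith
    rw [abs_mul, abs_mul]
    calc |(54 : ℤ)| * (|2 * M - N| * |32 * M ^ 2 - 32 * M * N - N ^ 2|) ≤
        54 * ((3 * S) * (65 * S ^ 2)) := by
          rw [show |(54 : ℤ)| = 54 by norm_num]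
          gcongr
      _ = 10530 * S ^ 3 := by ring

/-- membership from the pieces -/
lemma cc_mem {m H : ℕ} {M N S : ℤ} (hM : M ≠ 0) (hN : N ≠ 0) (hMN : M ≠ N) (hc : IsCoprime M N)
    (h2 : ¬ (2 : ℤ) ∣ N) (h3 : ¬ (3 : ℤ) ∣ M + N) (hMS : |M| ≤ S) (hNS : |N| ≤ S)
    (hH : 3000000000 * S ^ 6 ≤ (H : ℤ)) (hm : HasC m (Sh (cc M N).1 (cc M N).2)) :
    cc M N ∈ CvC m H := by
  have hS : 0 ≤ S := (abs_nonneg M).trans hMS
  obtain ⟨b1, b2⟩ := cc_bound hMS hNS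
  have g1 : 4 * |(cc M N).1| ^ 3 ≤ (H : ℤ) := by
    calc 4 * |(cc M N).1| ^ 3 ≤ 4 * (891 * S ^ 2) ^ 3 := by gcongr
      _ = 2829391884 * S ^ 6 := by ring
      _ ≤ 3000000000 * S ^ 6 := by gcongr; norm_num
      _ ≤ _ := hH
  have g2 : 27 * (cc M N).2 ^ 2 ≤ (H : ℤ) := by
    rw [← sq_abs]
    calc 27 * |(cc M N).2| ^ 2 ≤ 27 * (10530 * S ^ 3) ^ 2 := by gcongr
      _ = 2993784300 * S ^ 6 := by ring
      _ ≤ 3000000000 * S ^ 6 := by gcongr; norm_num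
      _ ≤ _ := hH
  have k1 : |(cc M N).1| ≤ (H : ℤ) := by
    refine le_trans ?_ g1
    have h0 := abs_nonneg (cc M N).1
    generalize |(cc M N).1| = a at h0 ⊢
    rcases h0.eq_or_lt with h | h
    · rw [← h]; norm_num
    · have h1 : 1 ≤ a := h
      have h2 : 1 ≤ a ^ 2 := one_le_pow₀ h1
      nlinarith
  have k2 : |(cc M N).2| ≤ (H : ℤ) := by
    refine le_trans ?_ g2
    rw [← sq_abs]
    have h0 := abs_nonneg (cc M N).2
    generalize |(cc M N).2| = a at h0 ⊢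
    rcases h0.eq_or_lt with h | h
    · rw [← h]; norm_num
    · have h1 : 1 ≤ a := h
      nlinarith
  rw [abs_le] at k1 k2
  simp only [CvC, mem_filter, mem_product, mem_Icc]
  exact ⟨⟨k1, k2⟩, cc_disc_ne hM hN hMN, g1, g2, cc_min hc h2 h3, hm⟩

/-- the point of order four -/
lemma cc_four {M N : ℤ} {t : ℚ} (ht : (M : ℚ) = t ^ 2) (ht0 : t ≠ 0) (hN : N ≠ 0) :
    ∃ (h4 : (Sh (cc M N).1 (cc M N).2).toAffine.Nonsingular
        (12 * (M : ℚ) + 3 * N) (54 * t * N)),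
      addOrderOf (Affine.Point.some _ _ h4) = 4 := by
  have hN' : (N : ℚ) ≠ 0 := by exact_mod_cast hN
  have hA : (((cc M N).1 : ℤ) : ℚ) = -27 * (16 * t ^ 4 - 16 * t ^ 2 * N + (N : ℚ) ^ 2) := by
    simp only [cc]
    push_cast
    rw [ht]
    ring
  have hB : (((cc M N).2 : ℤ) : ℚ) = 54 * ((2 * t ^ 2 - N) * (32 * t ^ 4 - 32 * t ^ 2 * N -
      (N : ℚ) ^ 2)) := by
    simp only [cc]
    push_cast
    rw [ht]
    ring
  have hy : 54 * t * N ≠ 0 := by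
    simp [ht0, hN']
  rw [ht]
  generalize (cc M N).1 = A at hA ⊢
  generalize (cc M N).2 = B at hB ⊢
  have hP : (Sh A B).toAffine.Nonsingular (12 * t ^ 2 + 3 * N) (54 * t * N) := by
    apply nons _ (Or.inl hy)
    rw [hA, hB]; ring
  have hR : (Sh A B).toAffine.Nonsingular (12 * t ^ 2 - 6 * N) 0 := by
    apply nons _ (Or.inr _)
    · rw [hA, hB]; ring
    · rw [hA]
      have : 3 * (12 * t ^ 2 - 6 * N) ^ 2 + -27 * (16 * t ^ 4 - 16 * t ^ 2 * N + (N : ℚ) ^ 2) =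
        81 * (N : ℚ) ^ 2 := by ring
      rw [this]; positivity
  refine ⟨hP, ?_⟩
  set P : (Sh A B).toAffine.Point := .some _ _ hP with hPd
  set R : (Sh A B).toAffine.Point := .some _ _ hR with hRd
  have hRR : R + R = 0 := by
    rw [hRd]
    apply Affine.Point.add_self_of_Y_eq
    rw [neg_y]; simp
  have hPP : P + P = R := by
    have hne : 54 * t * (N : ℚ) ≠ (Sh A B).toAffine.negY (12 * t ^ 2 + 3 * N) (54 * t * N) := by
      rw [neg_y]
      intro h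
      apply hy
      linarith
    have hsl : (Sh A B).toAffine.slope (12 * t ^ 2 + 3 * N) (12 * t ^ 2 + 3 * N)
        (54 * t * N) (54 * t * N) = 6 * t := by
      rw [Affine.slope_of_Y_ne rfl hne, neg_y]
      simp only [Sh]
      rw [hA, div_eq_iff (by intro h; apply hy; linarith)]
      ring
    rw [hPd, Affine.Point.add_self_of_Y_ne hne, hRd, Affine.Point.some.injEq, hsl]
    constructor
    · simp only [Affine.addX, Sh]; ring
    · simp only [Affine.addY, Affine.negAddY, Affine.negY, Affine.addX, Sh]; ring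
  have hR0 : R ≠ 0 := Affine.Point.some_ne_zero hR
  have h2P : 2 • P = R := by rw [two_nsmul, hPP]
  have h4P : 4 • P = 0 := by
    have : (4 : ℕ) • P = 2 • (2 • P) := by rw [← mul_nsmul]
    rw [this, h2P, two_nsmul, hRR]
  have := addOrderOf_eq_prime_pow (x := P) (p := 2) (n := 1) (by simp [h2P, hR0]) h4P
  simpa using this

end Pool.Agent.V7H63.CY
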